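import Pool.Agent.Q189.GB1
import Mathlib.Probability.ProductMeasure

/-!
Project LE (helper218), job LE-GAU: Gaussian concentration for finitely many coordinates, from
Maurey's inequality. General index type.
-/

set_option autoImplicit false

open scoped BigOperators ENNReal
open MeasureTheory ProbabilityTheory

namespace Pool.Agent.Q95.LE

open Pool.Agent.H460BZ (EE)

variable {ι : Type*}

/-- The coordinates in `K`. -/
noncomputable def TT (K : Finset ι) (ω : ι → ℝ) : EE K.card :=
  LinearIsometryEquiv.piLpCongrLeft 2 ℝ ℝ K.equivFin (WithLp.toLp 2 (K.restrict ω))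

lemma TT_apply (K : Finset ι) (ω : ι → ℝ) (i : Fin K.card) :
    TT K ω i = ω (K.equivFin.symm i) := by
  unfold TT
  simp

lemma TT_meas (K : Finset ι) : Measurable (TT K) := by
  unfold TT
  have h1 : Measurable (fun ω : ι → ℝ => K.restrict ω) := Finset.measurable_restrict K
  exact (LinearIsometryEquiv.piLpCongrLeft 2 ℝ ℝ K.equivFin).continuous.measurable.comp
    ((PiLp.continuous_toLp 2 _).measurable.comp h1)

lemma TT_map (K : Finset ι) :
    (Measure.infinitePi fun _ : ι => gaussianReal 0 1).map (TT K) = stdGaussian (EE K.card) := by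
  have h1 : Measurable (fun ω : ι → ℝ => K.restrict ω) := Finset.measurable_restrict K
  have h2 : Measurable (WithLp.toLp 2 : (K → ℝ) → EuclideanSpace ℝ K) :=
    (PiLp.continuous_toLp 2 _).measurable
  have h3 : Measurable (LinearIsometryEquiv.piLpCongrLeft 2 ℝ ℝ K.equivFin) :=
    (LinearIsometryEquiv.piLpCongrLeft 2 ℝ ℝ K.equivFin).continuous.measurable
  have e : TT K = (LinearIsometryEquiv.piLpCongrLeft 2 ℝ ℝ K.equivFin) ∘
      ((WithLp.toLp 2 : (K → ℝ) → EuclideanSpace ℝ K) ∘ (fun ω : ι → ℝ => K.restrict ω)) := rfl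
  rw [e, ← Measure.map_map h3 (h2.comp h1), ← Measure.map_map h2 h1]
  have h4 := Measure.infinitePi_map_restrict (μ := fun _ : ι => gaussianReal 0 1) (I := K)
  rw [show (fun ω : ι → ℝ => K.restrict ω) = K.restrict from rfl, h4, map_pi_eq_stdGaussian,
    stdGaussian_map]

open Classical in
/-- Extension by zero. -/
noncomputable def ex (K : Finset ι) (v : EE K.card) (x : ι) : ℝ :=
  if h : x ∈ K then v (K.equivFin ⟨x, h⟩) else 0

lemma ex_TT (K : Finset ι) (ω : ι → ℝ) {x : ι} (hx : x ∈ K) : ex K (TT K ω) x = ω x := by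
  unfold ex
  rw [dif_pos hx, TT_apply]
  simp

lemma ex_sum (K : Finset ι) (v w : EE K.card) :
    Real.sqrt (∑ x ∈ K, (ex K v x - ex K w x) ^ 2) = ‖v - w‖ := by
  rw [EuclideanSpace.norm_eq]
  congr 1
  rw [← Finset.sum_coe_sort]
  rw [← Equiv.sum_comp K.equivFin]
  refine Finset.sum_congr rfl fun x _ => ?_
  unfold ex
  rw [dif_pos x.2, dif_pos x.2]
  simp

theorem gau_gen (K : Finset ι) (F : (ι → ℝ) → ℝ) (Lp m s : ℝ) (hL : 0 < Lp) (hs : 0 ≤ s)
    (hF : ∀ ω ω', |F ω - F ω'| ≤ Lp * Real.sqrt (∑ x ∈ K, (ω x - ω' x) ^ 2))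
    (hm : 1 / 2 ≤ (Measure.infinitePi fun _ : ι => gaussianReal 0 1).real {ω | F ω ≤ m}) :
    (Measure.infinitePi fun _ : ι => gaussianReal 0 1).real {ω | m + s < F ω} ≤
      2 * Real.exp (-s ^ 2 / (4 * Lp ^ 2)) := by
  obtain ⟨G, hG⟩ : ∃ G : EE K.card → ℝ, G = fun v => F (ex K v) := ⟨_, rfl⟩
  have hGL : ∀ v w, |G v - G w| ≤ Lp * ‖v - w‖ := by
    intro v w
    rw [hG, ← ex_sum]
    exact hF _ _
  have hFG : ∀ ω, F ω = G (TT K ω) := by
    intro ω
    have h1 := hF ω (ex K (TT K ω))
    have h2 : ∑ x ∈ K, (ω x - ex K (TT K ω) x) ^ 2 = 0 := by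
      refine Finset.sum_eq_zero fun x hx => ?_
      rw [ex_TT K ω hx]
      ring
    rw [h2, Real.sqrt_zero, mul_zero] at h1
    have h3 := abs_nonpos_iff.1 h1
    rw [hG]
    linarith
  have hGc : Continuous G := by
    have : LipschitzWith Lp.toNNReal G := by
      refine LipschitzWith.of_dist_le_mul fun v w => ?_
      rw [Real.dist_eq, dist_eq_norm, Real.coe_toNNReal _ hL.le]
      exact hGL v w
    exact this.continuous
  obtain ⟨A, hA⟩ : ∃ A : Set (EE K.card), A = {v | G v ≤ m} := ⟨_, rfl⟩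
  have hAc : IsClosed A := by
    rw [hA]
    exact isClosed_le hGc continuous_const
  have hAP : (stdGaussian (EE K.card) A).toReal
      = (Measure.infinitePi fun _ : ι => gaussianReal 0 1).real {ω | F ω ≤ m} := by
    rw [← TT_map K, Measure.map_apply (TT_meas K) hAc.measurableSet, Measure.real]
    congr 2
    ext ω
    simp only [hA, Set.mem_preimage, Set.mem_setOf_eq, hFG]
  have hne : A.Nonempty := by
    by_contra h
    rw [Set.not_nonempty_iff_eq_empty] at h
    rw [h, measure_empty] at hAP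
    rw [← hAP] at hm
    norm_num at hm
  have h1 := Q189.GB.conc hAc (q := 1 / 2) (by norm_num) (by rw [hAP]; exact hm) (r := s / Lp)
    (by positivity)
  have h2 : (Measure.infinitePi fun _ : ι => gaussianReal 0 1).real {ω | m + s < F ω}
      ≤ (stdGaussian (EE K.card) {x | s / Lp ≤ Metric.infDist x A}).toReal := by
    have hms : MeasurableSet {x : EE K.card | s / Lp ≤ Metric.infDist x A} :=
      measurableSet_le measurable_const (Metric.continuous_infDist_pt A).measurable
    rw [← TT_map K, Measure.map_apply (TT_meas K) hms, ← Measure.real]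
    apply measureReal_mono
    · intro ω hω
      simp only [Set.mem_setOf_eq, Set.mem_preimage] at hω ⊢
      rw [Metric.le_infDist hne]
      intro a ha
      have ha' : G a ≤ m := by
        rw [hA] at ha
        exact ha
      have h3 := hGL (TT K ω) a
      rw [hFG] at hω
      rw [div_le_iff₀ hL, dist_eq_norm]
      have h4 := le_abs_self (G (TT K ω) - G a)
      linarith
    · exact measure_ne_top _ _
  refine h2.trans (h1.trans (le_of_eq ?_))
  rw [div_pow]
  have e1 : -(s ^ 2 / Lp ^ 2 / 4) = -s ^ 2 / (4 * Lp ^ 2) := by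
    field_simp
  rw [e1]
  ring

end Pool.Agent.Q95.LE
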