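import Pool.Agent.Q218.LE.Stm2
import Pool.Agent.Q95.LE.GauA

/-!
Project LE (helper218), job LE-GAU: Gaussian concentration for finitely many coordinates.
-/

set_option autoImplicit false

namespace Pool.Agent.Q95.LE

theorem t_GAU : Pool.Agent.Q218.LE.S_GAU := fun _ K F Lp m s hL hs hF hm =>
  gau_gen K F Lp m s hL hs hF hm

end Pool.Agent.Q95.LE
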